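import Pool.Agent.Helper57.BI.Defs

/-! Trigonometric polynomials on the cyclic group `ℤ/H` (as `H`-periodic functions on `ℤ`). -/

namespace Pool.Agent.Helper57.BI.Chr

open Finset Pool.Agent.Helper57.BI

/-- the character `i ↦ ee (k i / H)` -/
noncomputable def chi (H : ℕ) (k : ℤ) : ℤ → ℂ := fun i => ee (k * i / H)

lemma chi_add (H : ℕ) (k l : ℤ) : chi H (k + l) = chi H k * chi H l := by
  funext i
  simp only [chi, Pi.mul_apply]
  rw [← ee_add]
  congr 1
  push_cast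
  ring

lemma chi_at_zero (H : ℕ) (k : ℤ) : chi H k 0 = 1 := by
  simp [chi, ee_zero]

lemma chi_conj (H : ℕ) (k i : ℤ) : (starRingEnd ℂ) (chi H k i) = chi H (-k) i := by
  simp only [chi]
  rw [← ee_neg]
  congr 1
  push_cast
  ring

lemma chi_neg_arg (H : ℕ) (k i : ℤ) : chi H k (-i) = chi H (-k) i := by
  simp only [chi]
  congr 1
  push_cast
  ring

lemma chi_add_arg (H : ℕ) (k i j : ℤ) : chi H k (i + j) = chi H k i * chi H k j := by
  simp only [chi]
  rw [← ee_add]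
  congr 1
  push_cast
  ring

lemma norm_chi (H : ℕ) (k i : ℤ) : ‖chi H k i‖ = 1 := norm_ee _

lemma chi_periodic {H : ℕ} (hH : 0 < H) (k i : ℤ) : chi H k (i + H) = chi H k i := by
  simp only [chi]
  have h0 : (H : ℝ) ≠ 0 := by positivity
  have : (k : ℝ) * ((i + H : ℤ) : ℝ) / H = k * i / H + (k : ℤ) := by
    push_cast
    field_simp
  rw [this, ee_add_int]

lemma ee_eq_one {x : ℝ} (h : ee x = 1) : ∃ n : ℤ, x = n := by
  unfold ee at h
  rw [Complex.exp_eq_one_iff] at h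
  obtain ⟨n, hn⟩ := h
  refine ⟨n, ?_⟩
  have h2 : (2 * Real.pi * Complex.I : ℂ) ≠ 0 := Complex.two_pi_I_ne_zero
  have h3 : (x : ℂ) = n := by
    have : (x : ℂ) * (2 * Real.pi * Complex.I) = n * (2 * Real.pi * Complex.I) := by
      rw [← hn]; ring
    exact mul_right_cancel₀ h2 this
  exact_mod_cast h3

lemma ee_nat_mul (x : ℝ) (n : ℕ) : ee (n * x) = ee x ^ n := by
  induction n with
  | zero => simp [ee_zero]
  | succ n ih =>
    rw [pow_succ, ← ih, ← ee_add]
    congr 1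
    push_cast
    ring

lemma sum_chi {H : ℕ} (hH : 0 < H) (m : ℤ) (hm : |m| < H) :
    ∑ i ∈ range H, chi H m i = if m = 0 then (H : ℂ) else 0 := by
  have h0 : (H : ℝ) ≠ 0 := by positivity
  split_ifs with h
  · subst h
    simp [chi, ee_zero]
  · have h1 : ee ((m : ℝ) / H) ≠ 1 := by
      intro h2
      obtain ⟨n, hn⟩ := ee_eq_one h2
      rw [div_eq_iff h0] at hn
      have h3 : m = n * H := by exact_mod_cast hn
      have h4 : n ≠ 0 := by
        rintro rfl
        simp at h3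
        exact h h3
      have h5 : (1 : ℤ) ≤ |n| := Int.one_le_abs h4
      rw [h3, abs_mul, Nat.abs_cast] at hm
      nlinarith
    have h2 : ∀ i ∈ range H, chi H m (i : ℤ) = ee ((m : ℝ) / H) ^ i := by
      intro i _
      rw [← ee_nat_mul]
      simp only [chi]
      congr 1
      push_cast
      ring
    rw [sum_congr rfl h2, geom_sum_eq h1, ← ee_nat_mul]
    have : (H : ℝ) * ((m : ℝ) / H) = (m : ℤ) := by
      field_simp
    rw [this, ee_int]
    simp

/-- Parseval on `ℤ/H` for polynomials of low degree -/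
lemma parseval {H N : ℕ} (hH : 2 * N + 1 ≤ H) (c : ℤ → ℂ) :
    ∑ i ∈ range H, ‖∑ k ∈ Icc (-(N : ℤ)) N, c k * chi H k i‖ ^ 2 =
      H * ∑ k ∈ Icc (-(N : ℤ)) N, ‖c k‖ ^ 2 := by
  have hH0 : 0 < H := by omega
  have h1 : ∀ i : ℕ, ((‖∑ k ∈ Icc (-(N : ℤ)) N, c k * chi H k i‖ ^ 2 : ℝ) : ℂ) =
      ∑ k ∈ Icc (-(N : ℤ)) N, ∑ l ∈ Icc (-(N : ℤ)) N,
        c k * (starRingEnd ℂ) (c l) * chi H (k - l) i := by
    intro i
    rw [← Complex.normSq_eq_norm_sq, Complex.normSq_eq_conj_mul_self, map_sum, mul_comm,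
      sum_mul_sum]
    refine sum_congr rfl fun k _ => sum_congr rfl fun l _ => ?_
    rw [map_mul, chi_conj, sub_eq_add_neg, chi_add, Pi.mul_apply]
    ring
  have h2 : ((∑ i ∈ range H, ‖∑ k ∈ Icc (-(N : ℤ)) N, c k * chi H k i‖ ^ 2 : ℝ) : ℂ) =
      ((H * ∑ k ∈ Icc (-(N : ℤ)) N, ‖c k‖ ^ 2 : ℝ) : ℂ) := by
    rw [Complex.ofReal_sum, sum_congr rfl fun i _ => h1 i, sum_comm]
    push_cast
    rw [mul_sum]
    refine sum_congr rfl fun k hk => ?_
    rw [sum_comm]
    rw [sum_congr rfl (g := fun l => c k * (starRingEnd ℂ) (c l) *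
      (if k - l = 0 then (H : ℂ) else 0))]
    · rw [Finset.sum_eq_single k]
      · simp only [sub_self, if_true]
        rw [← Complex.ofReal_pow, ← Complex.normSq_eq_norm_sq, Complex.normSq_eq_conj_mul_self]
        ring
      · intro l _ hl
        rw [if_neg (by omega), mul_zero]
      · intro h
        exact absurd hk h
    · intro l hl
      rw [← mul_sum, sum_chi hH0]
      rw [mem_Icc] at hk hl
      rw [abs_lt]
      constructor <;> omega
  exact_mod_cast h2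

/-- trigonometric polynomials of degree at most `N` -/
noncomputable def TP (H N : ℕ) : Submodule ℂ (ℤ → ℂ) :=
  Submodule.span ℂ (chi H '' ((Icc (-(N : ℤ)) N : Finset ℤ) : Set ℤ))

lemma mem_TP {H N : ℕ} {f : ℤ → ℂ} :
    f ∈ TP H N ↔ ∃ c : ℤ → ℂ, ∀ i, f i = ∑ k ∈ Icc (-(N : ℤ)) N, c k * chi H k i := by
  unfold TP
  rw [Submodule.mem_span_image_finset_iff_exists_fun']
  constructor
  · rintro ⟨c, rfl⟩
    exact ⟨c, fun i => by simp [Finset.sum_apply]⟩
  · rintro ⟨c, hc⟩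
    refine ⟨c, ?_⟩
    funext i
    rw [hc i]
    simp [Finset.sum_apply]

lemma chi_mem {H N : ℕ} {k : ℤ} (hk : k ∈ Icc (-(N : ℤ)) N) : chi H k ∈ TP H N :=
  Submodule.subset_span ⟨k, by exact_mod_cast hk, rfl⟩

lemma TP_mul {H M N : ℕ} {f g : ℤ → ℂ} (hf : f ∈ TP H M) (hg : g ∈ TP H N) :
    f * g ∈ TP H (M + N) := by
  have h1 : f * g ∈ TP H M * TP H N := Submodule.mul_mem_mul hf hg
  unfold TP at h1
  rw [Submodule.span_mul_span] at h1
  refine Submodule.span_mono ?_ h1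
  rintro _ ⟨_, ⟨k, hk, rfl⟩, _, ⟨l, hl, rfl⟩, rfl⟩
  refine ⟨k + l, ?_, chi_add H k l⟩
  simp only [coe_Icc, Set.mem_Icc] at hk hl ⊢
  push_cast
  constructor <;> omega

lemma TP_conj {H N : ℕ} {f : ℤ → ℂ} (hf : f ∈ TP H N) :
    (fun i => (starRingEnd ℂ) (f i)) ∈ TP H N := by
  rw [mem_TP] at hf
  obtain ⟨c, hc⟩ := hf
  have : (fun i => (starRingEnd ℂ) (f i)) =
      ∑ k ∈ Icc (-(N : ℤ)) N, (starRingEnd ℂ) (c k) • chi H (-k) := by
    funext i
    rw [hc i, map_sum, Finset.sum_apply]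
    refine sum_congr rfl fun k _ => ?_
    rw [map_mul, chi_conj]
    rfl
  rw [this]
  refine Submodule.sum_mem _ fun k hk => Submodule.smul_mem _ _ (chi_mem ?_)
  rw [mem_Icc] at hk ⊢
  constructor <;> omega

lemma TP_shift {H N : ℕ} {f : ℤ → ℂ} (hf : f ∈ TP H N) (s : ℤ) :
    (fun i => f (i - s)) ∈ TP H N := by
  rw [mem_TP] at hf ⊢
  obtain ⟨c, hc⟩ := hf
  refine ⟨fun k => c k * chi H k (-s), fun i => ?_⟩
  rw [hc]
  refine sum_congr rfl fun k _ => ?_
  rw [sub_eq_add_neg, chi_add_arg]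
  ring

lemma TP_periodic {H N : ℕ} (hH : 0 < H) {f : ℤ → ℂ} (hf : f ∈ TP H N) (i : ℤ) :
    f (i + H) = f i := by
  rw [mem_TP] at hf
  obtain ⟨c, hc⟩ := hf
  rw [hc, hc]
  exact sum_congr rfl fun k _ => by rw [chi_periodic hH]

/-- a periodic function is determined by its values on `[0, H)` -/
lemma periodic_emod {α : Type*} {H : ℕ} {f : ℤ → α} (hf : ∀ i, f (i + H) = f i)
    (i : ℤ) : f i = f (i % H) := by
  have h1 : ∀ (n : ℕ) (i : ℤ), f (i + n * H) = f i := by
    intro n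
    induction n with
    | zero => intro i; simp
    | succ n ih =>
      intro i
      have : i + ((n + 1 : ℕ) : ℤ) * H = (i + n * H) + H := by push_cast; ring
      rw [this, hf, ih]
  have h2 : ∀ (n : ℤ) (i : ℤ), f (i + n * H) = f i := by
    intro n i
    obtain ⟨m, rfl | rfl⟩ := n.eq_nat_or_neg
    · exact h1 m i
    · have := h1 m (i + -(m : ℤ) * H)
      rw [← this]
      congr 1
      ring
  have h3 : i % H + (i / H) * H = i := by
    rw [mul_comm]
    exact Int.emod_add_mul_ediv i H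
  conv_lhs => rw [← h3]
  rw [h2]

end Pool.Agent.Helper57.BI.Chr
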