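import Pool.Agent.Helper17.BI.Chi

/-! The discrete Christoffel function (block BI-14). -/

namespace Pool.Agent.Helper57.BI.Chr

open Finset Pool.Agent.Helper57.BI

/-- evaluation on `[0, H)` with the weight `exp (-u/2)` -/
noncomputable def Wt (H : ℕ) (u : ℤ → ℝ) : (ℤ → ℂ) →ₗ[ℂ] EuclideanSpace ℂ (Fin H) where
  toFun f := WithLp.toLp 2 fun i : Fin H => (Real.exp (-(u ((i : ℕ) : ℤ)) / 2) : ℂ) * f ((i : ℕ) : ℤ)
  map_add' f g := by
    ext i
    simp [mul_add]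
  map_smul' c f := by
    ext i
    simp
    ring

lemma Wt_apply (H : ℕ) (u : ℤ → ℝ) (f : ℤ → ℂ) (i : Fin H) :
    Wt H u f i = (Real.exp (-(u ((i : ℕ) : ℤ)) / 2) : ℂ) * f ((i : ℕ) : ℤ) := rfl

lemma Wt_norm_sq (H : ℕ) (u : ℤ → ℝ) (f : ℤ → ℂ) :
    ‖Wt H u f‖ ^ 2 = ∑ i ∈ range H, ‖(Real.exp (-(u (i : ℤ)) / 2) : ℂ) * f (i : ℤ)‖ ^ 2 := by
  rw [EuclideanSpace.norm_sq_eq, Finset.sum_range]
  rfl

lemma finrank_map {H N : ℕ} (hH : 2 * N + 1 ≤ H) (u : ℤ → ℝ) :
    Module.finrank ℂ ((TP H N).map (Wt H u)) = 2 * N + 1 := by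
  have hH0 : 0 < H := by omega
  have hli : LinearIndepOn ℂ (fun k => Wt H u (chi H k))
      ((Icc (-(N : ℤ)) N : Finset ℤ) : Set ℤ) := by
    rw [linearIndepOn_finset_iff]
    intro c hc
    have h1 : ∀ i ∈ range H, ∑ k ∈ Icc (-(N : ℤ)) N, c k * chi H k i = 0 := by
      intro i hi
      rw [mem_range] at hi
      have h2 := congrArg (fun v : EuclideanSpace ℂ (Fin H) => v ⟨i, hi⟩) hc
      simp only [WithLp.ofLp_sum, WithLp.ofLp_smul, Finset.sum_apply, Pi.smul_apply, Wt_apply,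
        smul_eq_mul, WithLp.ofLp_zero, Pi.zero_apply] at h2
      have h3 : (Real.exp (-(u (i : ℤ)) / 2) : ℂ) *
          ∑ k ∈ Icc (-(N : ℤ)) N, c k * chi H k i = 0 := by
        rw [mul_sum, ← h2]
        refine sum_congr rfl fun k _ => ?_
        ring
      have h4 : (Real.exp (-(u (i : ℤ)) / 2) : ℂ) ≠ 0 := by
        exact_mod_cast (Real.exp_pos _).ne'
      exact (mul_eq_zero.1 h3).resolve_left h4
    have h2 := parseval hH c
    rw [sum_congr rfl (g := fun _ => (0 : ℝ)) (fun i hi => by rw [h1 i hi]; simp),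
      sum_const_zero] at h2
    have h3 : ∑ k ∈ Icc (-(N : ℤ)) N, ‖c k‖ ^ 2 = 0 := by
      have : (H : ℝ) ≠ 0 := by positivity
      rcases mul_eq_zero.1 h2.symm with h | h
      · exact absurd h this
      · exact h
    intro k hk
    have h4 := (Finset.sum_eq_zero_iff_of_nonneg (fun k _ => by positivity)).1 h3 k hk
    simpa using h4
  have h1 : (TP H N).map (Wt H u) =
      Submodule.span ℂ (Set.range fun k : ((Icc (-(N : ℤ)) N : Finset ℤ) : Set ℤ) =>
        Wt H u (chi H k)) := by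
    unfold TP
    rw [Submodule.map_span, Set.image_image, Set.image_eq_range]
  rw [h1, finrank_span_eq_card (LinearIndepOn.linearIndependent hli)]
  simp
  omega

lemma exists_basis {H N : ℕ} (hH : 2 * N + 1 ≤ H) (u : ℤ → ℝ) :
    ∃ p : Fin (2 * N + 1) → (ℤ → ℂ), (∀ j, p j ∈ TP H N) ∧
      (∀ i ∈ range H, ∑ j, ‖(Real.exp (-(u (i : ℤ)) / 2) : ℂ) * p j (i : ℤ)‖ ^ 2 ≤ 1) ∧
      (∑ i ∈ range H, ∑ j, ‖(Real.exp (-(u (i : ℤ)) / 2) : ℂ) * p j (i : ℤ)‖ ^ 2 = 2 * N + 1) ∧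
      ∀ q ∈ TP H N, ∀ i ∈ range H, ‖(Real.exp (-(u (i : ℤ)) / 2) : ℂ) * q (i : ℤ)‖ ^ 2 ≤
        (∑ j, ‖(Real.exp (-(u (i : ℤ)) / 2) : ℂ) * p j (i : ℤ)‖ ^ 2) *
          ∑ l ∈ range H, ‖(Real.exp (-(u (l : ℤ)) / 2) : ℂ) * q (l : ℤ)‖ ^ 2 := by
  set S := (TP H N).map (Wt H u) with hS
  have hfin : Module.finrank ℂ S = 2 * N + 1 := finrank_map hH u
  let b : OrthonormalBasis (Fin (2 * N + 1)) ℂ S :=
    (stdOrthonormalBasis ℂ S).reindex (finCongr hfin)
  have hb : ∀ j, ∃ p ∈ TP H N, Wt H u p = (b j : EuclideanSpace ℂ (Fin H)) := fun j =>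
    Submodule.mem_map.1 (b j).2
  choose p hp hpb using hb
  have hcoord : ∀ j, ∀ i (hi : i ∈ range H),
      (Real.exp (-(u (i : ℤ)) / 2) : ℂ) * p j (i : ℤ) =
        (b j : EuclideanSpace ℂ (Fin H)) ⟨i, mem_range.1 hi⟩ := by
    intro j i hi
    rw [← hpb]
    rfl
  have hon : Orthonormal ℂ fun j => (b j : EuclideanSpace ℂ (Fin H)) :=
    b.orthonormal.comp_linearIsometry S.subtypeₗᵢ
  refine ⟨p, hp, ?_, ?_, ?_⟩
  · intro i hi
    have h1 := hon.sum_inner_products_le (s := univ)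
      (x := EuclideanSpace.single (⟨i, mem_range.1 hi⟩ : Fin H) (1 : ℂ))
    rw [PiLp.norm_single, norm_one, one_pow] at h1
    refine le_trans (le_of_eq ?_) h1
    refine sum_congr rfl fun j _ => ?_
    rw [hcoord j i hi, EuclideanSpace.inner_single_right, one_mul]
    simp
  · rw [sum_comm]
    have h1 : ∀ j, ∑ i ∈ range H, ‖(Real.exp (-(u (i : ℤ)) / 2) : ℂ) * p j (i : ℤ)‖ ^ 2 = 1 := by
      intro j
      rw [← Wt_norm_sq, hpb, hon.1 j, one_pow]
    rw [sum_congr rfl fun j _ => h1 j]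
    simp
  · intro q hq i hi
    let x : S := ⟨Wt H u q, Submodule.mem_map_of_mem hq⟩
    have hx : ‖x‖ ^ 2 = ∑ l ∈ range H, ‖(Real.exp (-(u (l : ℤ)) / 2) : ℂ) * q (l : ℤ)‖ ^ 2 := by
      rw [← Wt_norm_sq]
      rfl
    have h1 := b.sum_repr' x
    have h2 := congrArg (fun v : S => (v : EuclideanSpace ℂ (Fin H)) ⟨i, mem_range.1 hi⟩) h1
    simp only [Submodule.coe_sum, Submodule.coe_smul, WithLp.ofLp_sum, WithLp.ofLp_smul,
      Finset.sum_apply, Pi.smul_apply, smul_eq_mul] at h2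
    have h3 : (Real.exp (-(u (i : ℤ)) / 2) : ℂ) * q (i : ℤ) =
        ∑ j, inner ℂ (b j) x * (b j : EuclideanSpace ℂ (Fin H)) ⟨i, mem_range.1 hi⟩ := by
      rw [h2]
      rfl
    rw [h3]
    have h4 : ‖∑ j, inner ℂ (b j) x * (b j : EuclideanSpace ℂ (Fin H)) ⟨i, mem_range.1 hi⟩‖ ≤
        ∑ j, ‖inner ℂ (b j) x‖ * ‖(b j : EuclideanSpace ℂ (Fin H)) ⟨i, mem_range.1 hi⟩‖ := by
      refine (norm_sum_le _ _).trans (le_of_eq ?_)
      exact sum_congr rfl fun j _ => norm_mul _ _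
    have h5 := Finset.sum_mul_sq_le_sq_mul_sq univ (fun j => ‖inner ℂ (b j) x‖)
      (fun j => ‖(b j : EuclideanSpace ℂ (Fin H)) ⟨i, mem_range.1 hi⟩‖)
    have h6 : ∑ j, ‖inner ℂ (b j) x‖ ^ 2 ≤ ‖x‖ ^ 2 :=
      b.orthonormal.sum_inner_products_le x (s := univ)
    have h7 : ∑ j, ‖(Real.exp (-(u (i : ℤ)) / 2) : ℂ) * p j (i : ℤ)‖ ^ 2 =
        ∑ j, ‖(b j : EuclideanSpace ℂ (Fin H)) ⟨i, mem_range.1 hi⟩‖ ^ 2 :=
      sum_congr rfl fun j _ => by rw [hcoord j i hi]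
    rw [← hx, h7]
    calc _ ≤ (∑ j, ‖inner ℂ (b j) x‖ *
          ‖(b j : EuclideanSpace ℂ (Fin H)) ⟨i, mem_range.1 hi⟩‖) ^ 2 := by
          gcongr
      _ ≤ _ := h5
      _ ≤ ‖x‖ ^ 2 * _ := mul_le_mul_of_nonneg_right h6 (sum_nonneg fun j _ => by positivity)
      _ = _ := mul_comm _ _

/-- the averaging argument -/
lemma averaging {H : ℕ} (A ρ : ℕ → ℝ) (F : ℕ → ℕ → ℝ) (κ e : ℝ)
    (hF : ∀ i ∈ range H, ∀ l ∈ range H, 0 ≤ F i l)
    (hrow : ∀ i ∈ range H, ∑ l ∈ range H, F i l = 1)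
    (hcol : ∀ l ∈ range H, ∑ i ∈ range H, F i l = 1)
    (hρ : ∀ i ∈ range H, 0 ≤ ρ i) (hρs : ∑ i ∈ range H, ρ i = H)
    (hA : ∀ i ∈ range H, 0 ≤ A i)
    (hk : ∀ i ∈ range H, κ * A i ≤ ρ i * ∑ l ∈ range H, F i l * A l) (hκ : 0 ≤ κ) (hκ1 : κ ≤ 1)
    (he : ∑ i ∈ range H, |A i - 1| ≤ e * H) :
    ∑ i ∈ range H, |ρ i - 1| ≤ 2 * ((1 - κ) + 3 * e) * H := by
  set B : ℕ → ℝ := fun i => ∑ l ∈ range H, F i l * A l with hB
  have hBs : ∑ i ∈ range H, |B i - 1| ≤ e * H := by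
    refine le_trans ?_ he
    have h1 : ∀ i ∈ range H, |B i - 1| ≤ ∑ l ∈ range H, F i l * |A l - 1| := by
      intro i hi
      have h2 : B i - 1 = ∑ l ∈ range H, F i l * (A l - 1) := by
        rw [sum_congr rfl (g := fun l => F i l * A l - F i l) (fun l _ => by ring),
          sum_sub_distrib, hrow i hi]
      rw [h2]
      refine (abs_sum_le_sum_abs _ _).trans (sum_le_sum fun l hl => ?_)
      rw [abs_mul, abs_of_nonneg (hF i hi l hl)]
    refine (sum_le_sum h1).trans (le_of_eq ?_)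
    rw [sum_comm]
    refine sum_congr rfl fun l hl => ?_
    rw [← sum_mul, hcol l hl, one_mul]
  have h1 : ∀ i ∈ range H, |ρ i - 1| ≤
      (ρ i - 1) + 2 * ((1 - κ) + 2 * |B i - 1| + |A i - 1|) := by
    intro i hi
    have hk' := hk i hi
    have hρ' := hρ i hi
    have hA' := hA i hi
    change κ * A i ≤ ρ i * B i at hk'
    rcases le_total 1 (ρ i) with h | h
    · rw [abs_of_nonneg (by linarith)]
      have := abs_nonneg (B i - 1)
      have := abs_nonneg (A i - 1)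
      linarith
    · rw [abs_of_nonpos (by linarith)]
      have h3 : (1 - ρ i) * (1 - B i) ≤ |B i - 1| := by
        have h4 : (1 - ρ i) * (1 - B i) ≤ (1 - ρ i) * |B i - 1| := by
          refine mul_le_mul_of_nonneg_left ?_ (by linarith)
          rw [abs_sub_comm]
          exact le_abs_self _
        have h5 : (1 - ρ i) * |B i - 1| ≤ 1 * |B i - 1| :=
          mul_le_mul_of_nonneg_right (by linarith) (abs_nonneg _)
        linarith
      have h6 : B i - 1 ≤ |B i - 1| := le_abs_self _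
      have h7 : κ * (1 - A i) ≤ |A i - 1| := by
        have h8 : κ * (1 - A i) ≤ κ * |A i - 1| := by
          refine mul_le_mul_of_nonneg_left ?_ hκ
          rw [abs_sub_comm]
          exact le_abs_self _
        have h9 : κ * |A i - 1| ≤ 1 * |A i - 1| :=
          mul_le_mul_of_nonneg_right hκ1 (abs_nonneg _)
        linarith
      nlinarith
  refine (sum_le_sum h1).trans ?_
  rw [sum_add_distrib, sum_sub_distrib, hρs, ← mul_sum, sum_add_distrib, sum_add_distrib,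
    ← mul_sum]
  simp only [sum_const, card_range, nsmul_eq_mul, mul_one]
  have h2 := hBs
  nlinarith [he, hBs]

/-- BI-14 -/
theorem christoffel_aux (H N N1 : ℕ) (hN1 : N1 ≤ N) (hN : 0 < N) (hH : 2 * N + 1 ≤ H) (u : ℤ → ℝ)
    (hu : ∀ i, u (i + H) = u i) (f : ℤ → ℂ) (hf : f ∈ TP H N1) (δ : ℝ) (hδ : 0 < δ)
    (hδ' : δ ≤ 1 / 2)
    (hg : ∑ i ∈ range H, ‖(Real.exp (-(u (i : ℤ)) / 2) : ℂ) * f (i : ℤ) - 1‖ ^ 2 ≤ δ ^ 4 * H) :
    ∃ (G : ℤ → ℝ), (fun i => (G i : ℂ)) ∈ TP H (N + N) ∧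
      (∀ i, 0 ≤ G i) ∧ (∀ i : ℤ, Real.exp (-(u i)) * G i ≤ H / (2 * N + 1)) ∧
      ∑ i ∈ range H, |Real.exp (-(u (i : ℤ))) * G (i : ℤ) - 1| ≤ (2 * N1 / N + 16 * δ) * H := by
  have hH0 : 0 < H := by omega
  have hHr : (0 : ℝ) < H := by exact_mod_cast hH0
  have hNr : (0 : ℝ) < N := by exact_mod_cast hN
  obtain ⟨p, hp, hp1, hp2, hp3⟩ := exists_basis hH u
  set w : ℤ → ℝ := fun i => Real.exp (-(u i) / 2) with hw
  have hww : ∀ i, w i ^ 2 = Real.exp (-(u i)) := by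
    intro i
    rw [hw]
    simp only
    rw [← Real.exp_nat_mul]
    congr 1
    push_cast
    ring
  set c : ℝ := (H : ℝ) / (2 * N + 1) with hc
  have hc0 : 0 < c := by positivity
  set G : ℤ → ℝ := fun i => c * ∑ j, ‖p j i‖ ^ 2 with hG
  -- periodicity
  have hGper : ∀ i, G (i + H) = G i := by
    intro i
    simp only [hG]
    congr 1
    exact sum_congr rfl fun j _ => by rw [TP_periodic hH0 (hp j)]
  -- density
  have hρ : ∀ i : ℤ, Real.exp (-(u i)) * G i = c * ∑ j, ‖(w i : ℂ) * p j i‖ ^ 2 := by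
    intro i
    simp only [hG]
    rw [← hww i, mul_left_comm, mul_sum]
    congr 1
    refine sum_congr rfl fun j _ => ?_
    rw [norm_mul, mul_pow, Complex.norm_real, Real.norm_eq_abs, sq_abs]
  refine ⟨G, ?_, ?_, ?_, ?_⟩
  · have h1 : (fun i => (G i : ℂ)) =
        (c : ℂ) • ∑ j, p j * fun i => (starRingEnd ℂ) (p j i) := by
      funext i
      simp only [hG, Pi.smul_apply, Finset.sum_apply, Pi.mul_apply, smul_eq_mul]
      push_cast
      congr 1
      refine sum_congr rfl fun j _ => ?_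
      rw [← Complex.ofReal_pow, ← Complex.normSq_eq_norm_sq, Complex.normSq_eq_conj_mul_self]
      ring
    rw [h1]
    exact Submodule.smul_mem _ _ (Submodule.sum_mem _ fun j _ => TP_mul (hp j) (TP_conj (hp j)))
  · intro i
    simp only [hG]
    positivity
  · intro i
    have h1 : Real.exp (-(u i)) * G i = Real.exp (-(u (i % H))) * G (i % H) := by
      rw [periodic_emod hu i, periodic_emod hGper i]
    rw [h1, hρ]
    have h2 : 0 ≤ i % H := Int.emod_nonneg _ (by omega)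
    have h3 : i % H < H := Int.emod_lt_of_pos _ (by omega)
    obtain ⟨n, hn⟩ := Int.eq_ofNat_of_zero_le h2
    rw [hn] at h3 ⊢
    have h4 := hp1 n (mem_range.2 (by omega))
    calc _ ≤ c * 1 := mul_le_mul_of_nonneg_left h4 hc0.le
      _ = _ := mul_one _
  · -- the lower bound
    obtain ⟨M, hM⟩ : ∃ M, N = N1 + M := ⟨N - N1, by omega⟩
    set D : ℤ → ℂ := fun i => ∑ k ∈ Icc (-(M : ℤ)) M, chi H k i with hD
    have hDm : D ∈ TP H M := mem_TP.2 ⟨fun _ => 1, fun i => by simp [hD]⟩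
    have hD0 : D 0 = 2 * M + 1 := by
      simp only [hD, chi_at_zero]
      simp
      have : ((M : ℤ) + 1 + M).toNat = 2 * M + 1 := by omega
      rw [this]
      push_cast
      ring
    have hDs : ∀ s : ℤ, ∑ l ∈ range H, ‖D (l - s)‖ ^ 2 = H * (2 * M + 1) := by
      intro s
      have h1 : ∀ l : ℕ, D ((l : ℤ) - s) = ∑ k ∈ Icc (-(M : ℤ)) M, chi H k (-s) * chi H k l := by
        intro l
        simp only [hD]
        refine sum_congr rfl fun k _ => ?_
        rw [sub_eq_add_neg, chi_add_arg, mul_comm]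
      rw [sum_congr rfl fun l _ => by rw [h1 l], parseval (by omega) fun k => chi H k (-s)]
      congr 1
      simp only [norm_chi]
      simp
      have : ((M : ℤ) + 1 + M).toNat = 2 * M + 1 := by omega
      rw [this]
      push_cast
      ring
    have hDn : ∀ m : ℤ, ‖D (-m)‖ = ‖D m‖ := by
      intro m
      have : D (-m) = (starRingEnd ℂ) (D m) := by
        simp only [hD]
        rw [map_sum]
        refine sum_congr rfl fun k _ => ?_
        rw [chi_conj, chi_neg_arg]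
      rw [this, RCLike.norm_conj]
    set A : ℕ → ℝ := fun i => ‖(w (i : ℤ) : ℂ) * f (i : ℤ)‖ ^ 2 with hA
    set F : ℕ → ℕ → ℝ := fun i l => ‖D ((l : ℤ) - i)‖ ^ 2 / (H * (2 * M + 1)) with hF
    have hHM : (0 : ℝ) < H * (2 * M + 1) := by positivity
    have hsum := averaging (H := H) A (fun i => Real.exp (-(u (i : ℤ))) * G (i : ℤ)) F
      ((2 * M + 1) / (2 * N + 1)) (δ ^ 4 + 2 * δ ^ 2) ?_ ?_ ?_ ?_ ?_ ?_ ?_ ?_ ?_ ?_
    · refine hsum.trans ?_
      refine mul_le_mul_of_nonneg_right ?_ hHr.le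
      have h1 : 1 - (2 * (M : ℝ) + 1) / (2 * N + 1) ≤ N1 / N := by
        have : (N : ℝ) = N1 + M := by exact_mod_cast hM
        rw [sub_le_iff_le_add, div_add_div _ _ (by positivity) (by positivity),
          le_div_iff₀ (by positivity)]
        rw [one_mul]
        have h0 : (0 : ℝ) ≤ N1 := by positivity
        nlinarith
      have h2 : δ ^ 4 ≤ δ ^ 2 / 4 := by
        have : δ ^ 2 ≤ 1 / 4 := by nlinarith
        nlinarith [sq_nonneg δ]
      have h3 : δ ^ 2 ≤ δ / 2 := by nlinarith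
      have h4 : 2 * (N1 : ℝ) / N = 2 * (N1 / N) := by ring
      rw [h4]
      nlinarith
    · intro i _ l _
      positivity
    · intro i _
      simp only [hF]
      rw [← sum_div, hDs, div_self hHM.ne']
    · intro l _
      simp only [hF]
      rw [← sum_div]
      have : ∀ i ∈ range H, ‖D ((l : ℤ) - i)‖ ^ 2 = ‖D ((i : ℤ) - l)‖ ^ 2 := by
        intro i _
        rw [← hDn]
        congr 3
        ring
      rw [sum_congr rfl this, hDs, div_self hHM.ne']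
    · intro i _
      simp only [hG]
      positivity
    · simp only [hρ]
      rw [← mul_sum, hp2, hc]
      field_simp
    · intro i _
      positivity
    · intro i hi
      have hq : (f * fun j => D (j - i)) ∈ TP H N := by
        rw [hM]
        exact TP_mul hf (TP_shift hDm _)
      have h1 := hp3 _ hq i hi
      simp only [Pi.mul_apply, sub_self, hD0] at h1
      have h2 : ‖(Real.exp (-(u (i : ℤ)) / 2) : ℂ) * (f (i : ℤ) * (2 * M + 1))‖ ^ 2 =
          A i * (2 * M + 1) ^ 2 := by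
        simp only [hA, hw]
        rw [← mul_assoc, norm_mul, mul_pow]
        congr 1
        have : ((2 : ℂ) * M + 1) = ((2 * M + 1 : ℝ) : ℂ) := by push_cast; ring
        rw [this, Complex.norm_real, Real.norm_eq_abs, sq_abs]
      have h3 : ∑ l ∈ range H, ‖(Real.exp (-(u (l : ℤ)) / 2) : ℂ) *
          (f (l : ℤ) * D ((l : ℤ) - i))‖ ^ 2 =
          (H * (2 * M + 1)) * ∑ l ∈ range H, F i l * A l := by
        rw [mul_sum]
        refine sum_congr rfl fun l _ => ?_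
        simp only [hA, hw, hF]
        rw [← mul_assoc, norm_mul, mul_pow]
        field_simp
      rw [h2, h3] at h1
      simp only [hρ]
      have h4 : (0 : ℝ) < 2 * M + 1 := by positivity
      have h5 : A i * (2 * M + 1) ≤
          (∑ j, ‖(w (i : ℤ) : ℂ) * p j (i : ℤ)‖ ^ 2) * (H * ∑ l ∈ range H, F i l * A l) := by
        refine le_of_mul_le_mul_right ?_ h4
        calc _ = A i * (2 * M + 1) ^ 2 := by ring
          _ ≤ _ := h1
          _ = _ := by simp only [hw]; ring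
      rw [hc, div_mul_eq_mul_div, div_mul_eq_mul_div, div_mul_eq_mul_div,
        div_le_div_iff_of_pos_right (by positivity)]
      calc _ = A i * (2 * M + 1) := by ring
        _ ≤ _ := h5
        _ = _ := by ring
    · positivity
    · rw [div_le_one (by positivity)]
      have : (M : ℝ) ≤ N := by exact_mod_cast (by omega : M ≤ N)
      linarith
    · have h1 : ∀ i ∈ range H, |A i - 1| ≤
          (1 + 1 / δ ^ 2) * ‖(w (i : ℤ) : ℂ) * f (i : ℤ) - 1‖ ^ 2 + δ ^ 2 := by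
        intro i _
        set x := (w (i : ℤ) : ℂ) * f (i : ℤ) with hx
        have h2 : |‖x‖ - 1| ≤ ‖x - 1‖ := by
          have := abs_norm_sub_norm_le x 1
          rwa [norm_one] at this
        have h3 : |A i - 1| = |‖x‖ - 1| * (‖x‖ + 1) := by
          have h4 : A i - 1 = (‖x‖ - 1) * (‖x‖ + 1) := by
            simp only [hA]
            ring
          rw [h4, abs_mul, abs_of_nonneg (a := ‖x‖ + 1) (by positivity)]
        have h5 : ‖x‖ ≤ ‖x - 1‖ + 1 := by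
          have := norm_le_norm_sub_add x 1
          rwa [norm_one] at this
        have h6 : |A i - 1| ≤ ‖x - 1‖ * (‖x - 1‖ + 2) := by
          rw [h3]
          refine mul_le_mul h2 (by linarith) (by positivity) (by positivity)
        have h7 : 2 * ‖x - 1‖ ≤ 1 / δ ^ 2 * ‖x - 1‖ ^ 2 + δ ^ 2 := by
          have h8 : 0 ≤ (‖x - 1‖ / δ - δ) ^ 2 := sq_nonneg _
          have h9 : (‖x - 1‖ / δ - δ) ^ 2 =
              1 / δ ^ 2 * ‖x - 1‖ ^ 2 - 2 * ‖x - 1‖ + δ ^ 2 := by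
            field_simp
            ring
          linarith
        nlinarith
      refine (sum_le_sum h1).trans ?_
      rw [sum_add_distrib, ← mul_sum]
      simp only [sum_const, card_range, nsmul_eq_mul]
      have h2 : (1 + 1 / δ ^ 2) * ∑ i ∈ range H, ‖(w (i : ℤ) : ℂ) * f (i : ℤ) - 1‖ ^ 2 ≤
          (1 + 1 / δ ^ 2) * (δ ^ 4 * H) := mul_le_mul_of_nonneg_left hg (by positivity)
      have h3 : (1 + 1 / δ ^ 2) * (δ ^ 4 * H) = (δ ^ 4 + δ ^ 2) * H := by
        field_simp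
      nlinarith

end Pool.Agent.Helper57.BI.Chr

namespace Pool.Agent.Helper57.BI

open Finset Chr

/-- BI-14 -/
theorem christoffel (H N N1 : ℕ) (hN1 : N1 ≤ N) (hN : 0 < N) (hH : 2 * N + 1 ≤ H) (u : ℤ → ℝ)
    (hu : ∀ i, u (i + H) = u i) (g : ℤ → ℂ) (δ : ℝ) (hδ : 0 < δ) (hδ' : δ ≤ 1 / 2)
    (hg : (∑ i ∈ Finset.range H, ‖(Real.exp (-(u i) / 2) : ℂ) *
      (∑ k ∈ Finset.Icc (-(N1 : ℤ)) N1, g k * ee (k * i / H)) - 1‖ ^ 2) / H ≤ δ ^ 4) :
    ∃ (G : ℤ → ℝ) (γ : ℤ → ℂ),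
      (∀ i : ℤ, (G i : ℂ) = ∑ k ∈ Finset.Icc (-((2 * N : ℕ) : ℤ)) ((2 * N : ℕ) : ℤ),
        γ k * ee (k * i / H)) ∧
      (∀ i, 0 ≤ G i) ∧ (∀ i : ℤ, Real.exp (-(u i)) * G i ≤ H / (2 * N + 1)) ∧
      (∑ i ∈ Finset.range H, |Real.exp (-(u i)) * G i - 1|) / H ≤ 2 * N1 / N + 16 * δ := by
  have hH0 : (0 : ℝ) < H := by
    have : 0 < H := by omega
    exact_mod_cast this
  rw [div_le_iff₀ hH0] at hg
  set f : ℤ → ℂ := fun i => ∑ k ∈ Finset.Icc (-(N1 : ℤ)) N1, g k * chi H k i with hfd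
  have hf : f ∈ TP H N1 := mem_TP.2 ⟨g, fun i => rfl⟩
  obtain ⟨G, hG1, hG2, hG3, hG4⟩ := christoffel_aux H N N1 hN1 hN hH u hu f hf δ hδ hδ' (by
    refine le_trans (le_of_eq ?_) hg
    refine sum_congr rfl fun i _ => ?_
    simp only [hfd, chi]
    norm_cast)
  rw [← two_mul] at hG1
  obtain ⟨γ, hγ⟩ := mem_TP.1 hG1
  refine ⟨G, γ, ?_, hG2, hG3, ?_⟩
  · intro i
    rw [hγ i]
    rfl
  · rw [div_le_iff₀ hH0]
    exact hG4

end Pool.Agent.Helper57.BI
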